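import Pool.Agent.H550R2.Lift.Sym

set_option autoImplicit false
set_option linter.unusedSectionVars false

/-! Symmetrization of a semidefinite program under a finite group. -/

namespace Pool.Agent.H550R2.Lift

open Finset Matrix

variable {I D G : Type*} [Fintype D] [DecidableEq D] [Fintype G] [DecidableEq G] [Group G]

/-- The symmetrized program: simultaneous feasibility of all copies of the program under the
permutations `A γ` of the input variables. -/
def SDP.symG (P : SDP I D) (A : G → Equiv.Perm I) : SDP I (G × D) where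
  L :=
    { carrier := {q | (∀ γ γ' d d', γ ≠ γ' → q.2 (γ, d) (γ', d') = 0) ∧
        ∀ γ, ((fun i => q.1 (A γ i), q.2.submatrix (fun d => (γ, d)) (fun d => (γ, d))) :
          (I → ℝ) × Matrix D D ℝ) ∈ P.L}
      smul_vsub_vadd_mem' := by
        rintro c p1 p2 p3 ⟨h1, h1'⟩ ⟨h2, h2'⟩ ⟨h3, h3'⟩
        refine ⟨?_, ?_⟩
        · intro γ γ' d d' hne
          show c * (p1.2 (γ, d) (γ', d') - p2.2 (γ, d) (γ', d')) + p3.2 (γ, d) (γ', d') = 0
          rw [h1 γ γ' d d' hne, h2 γ γ' d d' hne, h3 γ γ' d d' hne]
          ring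
        · intro γ
          exact P.L.smul_vsub_vadd_mem' c (h1' γ) (h2' γ) (h3' γ) }

theorem SDP.symG_acc (P : SDP I D) (A : G → Equiv.Perm I) (v : I → ℝ) :
    (P.symG A).Acc v ↔ ∀ γ, P.Acc (fun i => v (A γ i)) := by
  classical
  constructor
  · rintro ⟨Y, hY, -, h2⟩ γ
    exact ⟨_, hY.submatrix _, h2 γ⟩
  · intro h
    choose Y hY1 hY2 using h
    refine ⟨Matrix.of fun q q' => if q.1 = q'.1 then Y q.1 q.2 q'.2 else 0, ?_, ?_, ?_⟩
    · rw [Matrix.posSemidef_iff_dotProduct_mulVec]
      constructor
      · rw [Matrix.IsHermitian.ext_iff]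
        rintro ⟨γ, d⟩ ⟨γ', d'⟩
        rw [star_trivial]
        show (if γ' = γ then Y γ' d' d else 0) = if γ = γ' then Y γ d d' else 0
        by_cases hg : γ = γ'
        · subst hg
          rw [if_pos rfl, if_pos rfl]
          have := (hY1 γ).1
          rw [Matrix.IsHermitian.ext_iff] at this
          have h3 := this d d'
          rwa [star_trivial] at h3
        · rw [if_neg hg, if_neg (Ne.symm hg)]
      · intro z
        have h3 : star z ⬝ᵥ (Matrix.of fun q q' : G × D =>
            if q.1 = q'.1 then Y q.1 q.2 q'.2 else 0) *ᵥ z =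
            ∑ γ, star (fun d => z (γ, d)) ⬝ᵥ Y γ *ᵥ (fun d => z (γ, d)) := by
          rw [star_trivial, dotProduct, Fintype.sum_prod_type]
          apply Finset.sum_congr rfl
          intro γ _
          rw [star_trivial, dotProduct]
          apply Finset.sum_congr rfl
          intro d _
          congr 1
          rw [Matrix.mulVec, dotProduct, Fintype.sum_prod_type, Finset.sum_eq_single γ]
          · rw [Matrix.mulVec, dotProduct]
            apply Finset.sum_congr rfl
            intro d' _
            show (if γ = γ then Y γ d d' else 0) * _ = _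
            rw [if_pos rfl]
          · intro γ' _ hne
            apply Finset.sum_eq_zero
            intro d' _
            show (if γ = γ' then Y γ d d' else 0) * _ = _
            rw [if_neg (Ne.symm hne), zero_mul]
          · intro h
            exact absurd (Finset.mem_univ _) h
        rw [h3]
        apply Finset.sum_nonneg
        intro γ _
        exact (hY1 γ).dotProduct_mulVec_nonneg _
    · intro γ γ' d d' hne
      show (if γ = γ' then Y γ d d' else 0) = 0
      rw [if_neg hne]
    · intro γ
      have : (Matrix.of fun q q' : G × D =>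
          if q.1 = q'.1 then Y q.1 q.2 q'.2 else 0).submatrix (fun d => (γ, d))
          (fun d => (γ, d)) = Y γ := by
        ext d d'
        show (if γ = γ then Y γ d d' else 0) = _
        rw [if_pos rfl]
      rw [this]
      exact hY2 γ

theorem SDP.symG_sym (P : SDP I D) (A : G → Equiv.Perm I)
    (hmul : ∀ g h, A (g * h) = A g * A h) (δ : G) : ∃ T, (P.symG A).IsAut (A δ) T := by
  let σ : Equiv.Perm (G × D) := Equiv.prodCongr (Equiv.mulLeft δ⁻¹) (Equiv.refl _)
  refine ⟨pm σ, pm_orth σ, ?_⟩
  intro v Y
  rw [pm_conj]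
  have hact : ∀ γ i', (A δ).symm (A γ i') = A (δ⁻¹ * γ) i' := by
    intro γ i'
    rw [Equiv.symm_apply_eq, ← Equiv.Perm.mul_apply, ← hmul, mul_inv_cancel_left]
  constructor
  · rintro ⟨h1, h2⟩
    refine ⟨?_, ?_⟩
    · intro γ γ' d d' hne
      show Y (δ⁻¹ * γ, d) (δ⁻¹ * γ', d') = 0
      exact h1 _ _ _ _ (fun h => hne (mul_left_cancel h))
    · intro γ
      have := h2 (δ⁻¹ * γ)
      show ((fun i' => v ((A δ).symm (A γ i')), _) : (I → ℝ) × Matrix D D ℝ) ∈ P.L
      simp only [hact]
      exact this
  · rintro ⟨h1, h2⟩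
    refine ⟨?_, ?_⟩
    · intro γ γ' d d' hne
      have := h1 (δ * γ) (δ * γ') d d' (fun h => hne (mul_left_cancel h))
      have h3 : Y (δ⁻¹ * (δ * γ), d) (δ⁻¹ * (δ * γ'), d') = 0 := this
      rwa [inv_mul_cancel_left, inv_mul_cancel_left] at h3
    · intro γ
      have := h2 (δ * γ)
      have h3 : ((fun i' => v ((A δ).symm (A (δ * γ) i')),
        Y.submatrix (fun d => (δ⁻¹ * (δ * γ), d)) (fun d => (δ⁻¹ * (δ * γ), d))) :
        (I → ℝ) × Matrix D D ℝ) ∈ P.L := this
      simp only [hact, inv_mul_cancel_left] at h3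
      exact h3

end Pool.Agent.H550R2.Lift
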