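import Pool.Agent.H550R2.Lift.Blocks

set_option autoImplicit false
set_option linter.unusedSectionVars false

/-! Symmetrization of semidefinite programs. -/

namespace Pool.Agent.H550R2.Lift

open Finset Matrix

section perm

variable {D : Type*} [Fintype D] [DecidableEq D]

/-- the matrix of a permutation -/
def pm (σ : Equiv.Perm D) : Matrix D D ℝ := Matrix.of fun i j => if σ i = j then 1 else 0

theorem pm_mul (σ : Equiv.Perm D) (Y : Matrix D D ℝ) (i j : D) : (pm σ * Y) i j = Y (σ i) j := by
  rw [Matrix.mul_apply, Finset.sum_eq_single (σ i)]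
  · simp [pm]
  · intro k _ hk
    have : pm σ i k = 0 := by
      show (if σ i = k then (1 : ℝ) else 0) = 0
      rw [if_neg (Ne.symm hk)]
    rw [this, zero_mul]
  · intro h
    exact absurd (Finset.mem_univ _) h

theorem pm_conj (σ : Equiv.Perm D) (Y : Matrix D D ℝ) :
    pm σ * Y * (pm σ)ᵀ = Y.submatrix σ σ := by
  ext i j
  rw [Matrix.mul_apply, Finset.sum_eq_single (σ j)]
  · rw [pm_mul, Matrix.transpose_apply]
    have : pm σ j (σ j) = 1 := by
      show (if σ j = σ j then (1 : ℝ) else 0) = 1
      rw [if_pos rfl]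
    rw [this, mul_one]
    rfl
  · intro k _ hk
    have : pm σ j k = 0 := by
      show (if σ j = k then (1 : ℝ) else 0) = 0
      rw [if_neg (Ne.symm hk)]
    rw [Matrix.transpose_apply, this, mul_zero]
  · intro h
    exact absurd (Finset.mem_univ _) h

theorem pm_orth (σ : Equiv.Perm D) : (pm σ)ᵀ * pm σ = 1 := by
  have h1 : pm σ * (pm σ)ᵀ = 1 := by
    have := pm_conj σ (1 : Matrix D D ℝ)
    rw [Matrix.mul_one] at this
    rw [this]
    exact Matrix.submatrix_one_equiv σ
  exact mul_eq_one_comm.1 h1

end perm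

variable {I D X : Type*} [Fintype D] [DecidableEq D]

/-- The symmetrized program: simultaneous feasibility of all copies of the program under the
permutations of the blocks. -/
def SDP.symm {r : ℕ} (P : SDP I D) (A : (Fin r → A4) → Equiv.Perm I) :
    SDP I ((Fin r → A4) × D) where
  L :=
    { carrier := {q | (∀ γ γ' d d', γ ≠ γ' → q.2 (γ, d) (γ', d') = 0) ∧
        ∀ γ, ((fun i => q.1 (A γ i), q.2.submatrix (fun d => (γ, d)) (fun d => (γ, d))) :
          (I → ℝ) × Matrix D D ℝ) ∈ P.L}
      smul_vsub_vadd_mem' := by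
        rintro c p1 p2 p3 ⟨h1, h1'⟩ ⟨h2, h2'⟩ ⟨h3, h3'⟩
        refine ⟨?_, ?_⟩
        · intro γ γ' d d' hne
          show c * (p1.2 (γ, d) (γ', d') - p2.2 (γ, d) (γ', d')) + p3.2 (γ, d) (γ', d') = 0
          rw [h1 γ γ' d d' hne, h2 γ γ' d d' hne, h3 γ γ' d d' hne]
          ring
        · intro γ
          exact P.L.smul_vsub_vadd_mem' c (h1' γ) (h2' γ) (h3' γ) }

theorem SDP.symm_acc {r : ℕ} (P : SDP I D) (A : (Fin r → A4) → Equiv.Perm I) (v : I → ℝ) :
    (P.symm A).Acc v ↔ ∀ γ, P.Acc (fun i => v (A γ i)) := by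
  classical
  constructor
  · rintro ⟨Y, hY, -, h2⟩ γ
    exact ⟨_, hY.submatrix _, h2 γ⟩
  · intro h
    choose Y hY1 hY2 using h
    refine ⟨Matrix.of fun q q' => if q.1 = q'.1 then Y q.1 q.2 q'.2 else 0, ?_, ?_, ?_⟩
    · rw [Matrix.posSemidef_iff_dotProduct_mulVec]
      constructor
      · rw [Matrix.IsHermitian.ext_iff]
        rintro ⟨γ, d⟩ ⟨γ', d'⟩
        rw [star_trivial]
        show (if γ' = γ then Y γ' d' d else 0) = if γ = γ' then Y γ d d' else 0
        by_cases hg : γ = γ'
        · subst hg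
          rw [if_pos rfl, if_pos rfl]
          have := (hY1 γ).1
          rw [Matrix.IsHermitian.ext_iff] at this
          have h3 := this d d'
          rwa [star_trivial] at h3
        · rw [if_neg hg, if_neg (Ne.symm hg)]
      · intro z
        have h3 : star z ⬝ᵥ (Matrix.of fun q q' : (Fin r → A4) × D =>
            if q.1 = q'.1 then Y q.1 q.2 q'.2 else 0) *ᵥ z =
            ∑ γ, star (fun d => z (γ, d)) ⬝ᵥ Y γ *ᵥ (fun d => z (γ, d)) := by
          rw [star_trivial, dotProduct, Fintype.sum_prod_type]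
          apply Finset.sum_congr rfl
          intro γ _
          rw [star_trivial, dotProduct]
          apply Finset.sum_congr rfl
          intro d _
          congr 1
          rw [Matrix.mulVec, dotProduct, Fintype.sum_prod_type, Finset.sum_eq_single γ]
          · rw [Matrix.mulVec, dotProduct]
            apply Finset.sum_congr rfl
            intro d' _
            show (if γ = γ then Y γ d d' else 0) * _ = _
            rw [if_pos rfl]
          · intro γ' _ hne
            apply Finset.sum_eq_zero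
            intro d' _
            show (if γ = γ' then Y γ d d' else 0) * _ = _
            rw [if_neg (Ne.symm hne), zero_mul]
          · intro h
            exact absurd (Finset.mem_univ _) h
        rw [h3]
        apply Finset.sum_nonneg
        intro γ _
        exact (hY1 γ).dotProduct_mulVec_nonneg _
    · intro γ γ' d d' hne
      show (if γ = γ' then Y γ d d' else 0) = 0
      rw [if_neg hne]
    · intro γ
      have : (Matrix.of fun q q' : (Fin r → A4) × D =>
          if q.1 = q'.1 then Y q.1 q.2 q'.2 else 0).submatrix (fun d => (γ, d))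
          (fun d => (γ, d)) = Y γ := by
        ext d d'
        show (if γ = γ then Y γ d d' else 0) = _
        rw [if_pos rfl]
      rw [this]
      exact hY2 γ

theorem SDP.symm_sym (P : SDP I D) (act : Equiv.Perm X → Equiv.Perm I)
    (hmul : ∀ p q, act (p * q) = act p * act q) {r : ℕ} (blk : Fin r → (Fin 4 ↪ X))
    (hd : Pairwise fun i j => Disjoint (Set.range (blk i)) (Set.range (blk j))) (i : Fin r) :
    (P.symm (fun γ => act (bp (blkE blk hd) γ))).SymOn act (blk i) := by
  classical
  intro a ha p hp hp'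
  set δ : Fin r → A4 := Pi.mulSingle i ⟨a, ha⟩ with hδ
  have hpδ : p = bp (blkE blk hd) δ := by
    ext v
    by_cases h : v ∈ Set.range (blk i)
    · obtain ⟨c, rfl⟩ := h
      rw [hp]
      have := bp_apply (blkE blk hd) δ i c
      rw [hδ, Pi.mulSingle_eq_same] at this
      exact this.symm
    · rw [hp' v h, hδ, blkE_range blk hd i _ v h]
  let σ : Equiv.Perm ((Fin r → A4) × D) :=
    Equiv.prodCongr (Equiv.mulLeft δ⁻¹) (Equiv.refl _)
  refine ⟨pm σ, pm_orth σ, ?_⟩
  intro v Y
  rw [pm_conj]
  have hact : ∀ γ i', (act p).symm (act (bp (blkE blk hd) γ) i') =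
      act (bp (blkE blk hd) (δ⁻¹ * γ)) i' := by
    intro γ i'
    rw [Equiv.symm_apply_eq, ← Equiv.Perm.mul_apply, ← hmul, hpδ, ← bp_mul, mul_inv_cancel_left]
  constructor
  · rintro ⟨h1, h2⟩
    refine ⟨?_, ?_⟩
    · intro γ γ' d d' hne
      show Y (δ⁻¹ * γ, d) (δ⁻¹ * γ', d') = 0
      exact h1 _ _ _ _ (fun h => hne (mul_left_cancel h))
    · intro γ
      have := h2 (δ⁻¹ * γ)
      show ((fun i' => v ((act p).symm (act (bp (blkE blk hd) γ) i')), _) :
        (I → ℝ) × Matrix D D ℝ) ∈ P.L
      simp only [hact]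
      exact this
  · rintro ⟨h1, h2⟩
    refine ⟨?_, ?_⟩
    · intro γ γ' d d' hne
      have := h1 (δ * γ) (δ * γ') d d' (fun h => hne (mul_left_cancel h))
      have h3 : Y (δ⁻¹ * (δ * γ), d) (δ⁻¹ * (δ * γ'), d') = 0 := this
      rwa [inv_mul_cancel_left, inv_mul_cancel_left] at h3
    · intro γ
      have := h2 (δ * γ)
      have h3 : ((fun i' => v ((act p).symm (act (bp (blkE blk hd) (δ * γ)) i')),
        Y.submatrix (fun d => (δ⁻¹ * (δ * γ), d)) (fun d => (δ⁻¹ * (δ * γ), d))) :
        (I → ℝ) × Matrix D D ℝ) ∈ P.L := this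
      simp only [hact, inv_mul_cancel_left] at h3
      exact h3

theorem card_A4 : Fintype.card A4 = 12 := by
  decide

end Pool.Agent.H550R2.Lift
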