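import Pool.Agent.H550R2.Lift.GILift
import Pool.Agent.H550R2.Lift.Sym

set_option autoImplicit false
set_option linter.unusedSectionVars false

/-! Symmetrization of semidefinite programs for graph isomorphism. -/

namespace Pool.Agent.H550R2.Lift

open Finset Matrix

theorem comap_iso {V : Type*} (G : SimpleGraph V) (p : Equiv.Perm V) :
    Nonempty (G.comap p ≃g G) :=
  ⟨⟨p, Iff.rfl⟩⟩

theorem gi_upper (V D : Type) [Fintype D] [DecidableEq D] (P : SDP (Sym2 (V ⊕ V)) D) (b : Prop)
    (hP : ∀ G H : SimpleGraph V, (P.Acc (gvec (G ⊕g H)) ↔ (Nonempty (G ≃g H) ↔ b)))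
    (r : ℕ) (blk : Fin r → (Fin 4 ↪ V))
    (hd : Pairwise fun i j => Disjoint (Set.range (blk i)) (Set.range (blk j))) :
    ∃ (D' : Type) (_ : Fintype D') (_ : DecidableEq D') (P' : SDP (Sym2 (V ⊕ V)) D'),
      Fintype.card D' = 12 ^ r * Fintype.card D ∧ (∀ i, P'.SymOn edPerm (fstB (blk i))) ∧
      ∀ G H : SimpleGraph V, (P'.Acc (gvec (G ⊕g H)) ↔ (Nonempty (G ≃g H) ↔ b)) := by
  classical
  refine ⟨(Fin r → A4) × D, inferInstance, inferInstance,
    P.symm (fun γ => edPerm (bp (blkE (fun i => fstB (blk i)) (fstB_disj hd)) γ)), ?_,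
    P.symm_sym edPerm edPerm_mul _ (fstB_disj hd), ?_⟩
  · rw [Fintype.card_prod, Fintype.card_fun, card_A4, Fintype.card_fin]
  · intro G H
    rw [SDP.symm_acc]
    have key : ∀ γ : Fin r → A4, P.Acc (fun e => gvec (G ⊕g H)
        (edPerm (bp (blkE (fun i => fstB (blk i)) (fstB_disj hd)) γ) e)) ↔
        (Nonempty (G ≃g H) ↔ b) := by
      intro γ
      have h2 : ∀ x : V, bp (blkE (fun i => fstB (blk i)) (fstB_disj hd)) γ (Sum.inl x) =
          Sum.inl (bp (blkE blk hd) γ x) := by
        intro x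
        by_cases hx : x ∈ Set.range (blkE blk hd)
        · obtain ⟨⟨i, c⟩, rfl⟩ := hx
          rw [bp_apply]
          exact bp_apply (blkE (fun i => fstB (blk i)) (fstB_disj hd)) γ i c
        · rw [bp_notMem _ _ hx, bp_notMem]
          rintro ⟨⟨i, c⟩, h⟩
          exact hx ⟨(i, c), Sum.inl_injective h⟩
      have h3 : ∀ x : V, bp (blkE (fun i => fstB (blk i)) (fstB_disj hd)) γ (Sum.inr x) =
          Sum.inr x := by
        intro x
        rw [bp_notMem]
        rintro ⟨⟨i, c⟩, h⟩
        exact absurd h (by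
          show ¬ (Sum.inl (blk i c) : V ⊕ V) = Sum.inr x
          simp)
      have h1 : (fun e => gvec (G ⊕g H)
          (edPerm (bp (blkE (fun i => fstB (blk i)) (fstB_disj hd)) γ) e)) =
          gvec ((G.comap (bp (blkE blk hd) γ)) ⊕g H) := by
        have h4 : (fun e => gvec (G ⊕g H)
          (edPerm (bp (blkE (fun i => fstB (blk i)) (fstB_disj hd)) γ) e)) =
          ind (edPerm (bp (blkE (fun i => fstB (blk i)) (fstB_disj hd)) γ) ⁻¹'
            (G ⊕g H).edgeSet) := rfl
        rw [h4]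
        unfold gvec
        congr 1
        ext e
        induction e using Sym2.ind with
        | _ a b =>
          rw [Set.mem_preimage, edPerm_mk, SimpleGraph.mem_edgeSet, SimpleGraph.mem_edgeSet]
          rcases a with a | a <;> rcases b with b | b
          · rw [h2, h2]; exact Iff.rfl
          · rw [h2, h3]; exact Iff.rfl
          · rw [h3, h2]; exact Iff.rfl
          · rw [h3, h3]; exact Iff.rfl
      rw [h1, hP]
      obtain ⟨f⟩ := comap_iso G (bp (blkE blk hd) γ)
      have h5 : Nonempty (G.comap (bp (blkE blk hd) γ) ≃g H) ↔ Nonempty (G ≃g H) :=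
        ⟨fun ⟨g⟩ => ⟨f.symm.trans g⟩, fun ⟨g⟩ => ⟨f.trans g⟩⟩
      rw [h5]
    constructor
    · intro h
      exact (key 1).1 (h 1)
    · intro h γ
      exact (key γ).2 h

end Pool.Agent.H550R2.Lift
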