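import Pool.Agent.H550R2.Lift.GraphInput
import Pool.Agent.H550R2.SymGI.Main

set_option autoImplicit false
set_option linter.unusedSectionVars false

/-! Symmetric semidefinite programs and graph isomorphism. -/

namespace Pool.Agent.H550R2.Lift

open Finset Matrix Pool.Agent.H545R2.SB Pool.Agent.H550R2.SymGI

section core

variable {M : ℕ} (π : Fin 35 → Equiv.Perm (Fin M))

theorem CG_node {z : ℕ} (hM : 0 < M) (a b : CV M z) :
    ∃ v, ∀ β β' : Nd M → ZMod 2, β v = β' v → ((CG π β z).Adj a b ↔ (CG π β' z).Adj a b) := by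
  have hinc : ∀ v l e k, ∀ β β' : Nd M → ZMod 2, β v = β' v →
      (Inc π β v l e k ↔ Inc π β' v l e k) := by
    intro v l e k β β' h
    unfold Inc
    rw [h]
  rcases a with ⟨v | e, l⟩ | j <;> rcases b with ⟨v' | e', l'⟩ | j'
  · exact ⟨v, fun _ _ _ => Iff.rfl⟩
  · exact ⟨v, fun β β' h => hinc v l e' l' β β' h⟩
  · exact ⟨v, fun _ _ _ => Iff.rfl⟩
  · exact ⟨v', fun β β' h => hinc v' l' e l β β' h⟩
  · exact ⟨(⟨0, hM⟩, 0), fun _ _ _ => Iff.rfl⟩
  · exact ⟨(⟨0, hM⟩, 0), fun _ _ _ => Iff.rfl⟩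
  · exact ⟨(⟨0, hM⟩, 0), fun _ _ _ => Iff.rfl⟩
  · exact ⟨(⟨0, hM⟩, 0), fun _ _ _ => Iff.rfl⟩
  · exact ⟨(⟨0, hM⟩, 0), fun _ _ _ => Iff.rfl⟩

theorem gi_core {W U : Type*} {r : ℕ} (blk : Fin r × Fin 4 ↪ W) (hM : 0 < M)
    (hπ : ∀ A B : Finset (Fin M), M ≤ 5 * A.card → M ≤ 5 * B.card → ∃ j, ∃ a ∈ A, π j a ∈ B)
    (v0 : Nd M) (hv0 : Central π v0) (k : ℕ) (hk0 : 0 < k) (hk : 60 * k ≤ M)
    {D : Type*} [Fintype D] [DecidableEq D] (P : SDP (Sym2 W) D)
    (hD : Fintype.card D ^ 2 < 3 ^ k)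
    (hsym : ∀ γ, ∃ T, P.IsAut (edPerm (bp blk γ)) T) (ei : Pl M ↪ Fin r) {z : ℕ}
    (Θ : W ≃ CV M z ⊕ U)
    (hΘ : ∀ p l, Θ (blk (ei p, cd l)) = Sum.inl (Sum.inl (p, l))) (K : SimpleGraph U) :
    P.Acc (gvec ((CG π 0 z ⊕g K).comap Θ)) ↔
      P.Acc (gvec ((CG π (Pi.single v0 1) z ⊕g K).comap Θ)) := by
  classical
  let τ : (Ed M → ZMod 2) → Fin r → V4 := fun y =>
    Function.extend ei (fun b => (tauP π y b : V4)) 0
  have hτ1 : ∀ y b, τ y (ei b) = tauP π y b := fun y b => ei.injective.extend_apply _ _ b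
  have hτ2 : ∀ y j, (¬ ∃ b, ei b = j) → τ y j = 0 := fun y j h => Function.extend_apply' _ _ j h
  have hτadd : ∀ y y', τ (y + y') = τ y + τ y' := by
    intro y y'
    ext1 j
    rw [Pi.add_apply]
    by_cases hj : ∃ b, ei b = j
    · obtain ⟨b, rfl⟩ := hj
      rw [hτ1, hτ1, hτ1, tauP_add]
    · rw [hτ2 _ j hj, hτ2 _ j hj, hτ2 _ j hj, add_zero]
  have hloc : ∀ p : Fin r → V4, wt p < k → ∃ S : Finset (Nd M ⊕ Ed M), S.card < k ∧
      ∀ y, Avoid π S y → dt p (τ y) = 0 := by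
    intro p hp
    refine ⟨Finset.univ.filter (fun b : Pl M => p (ei b) ≠ 0), ?_, ?_⟩
    · refine lt_of_le_of_lt ?_ hp
      unfold wt
      apply Finset.card_le_card_of_injOn ei
      · intro b hb
        simpa using hb
      · exact ei.injective.injOn
    · intro y hy
      unfold dt
      apply Finset.sum_eq_zero
      intro j _
      by_cases hj : ∃ b, ei b = j
      · obtain ⟨b, rfl⟩ := hj
        rw [hτ1]
        by_cases hpb : p (ei b) = 0
        · rw [hpb]
          simp [dot]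
        · rw [tauP_avoid π hy b (by simpa using hpb)]
          simp [dot]
      · rw [hτ2 _ j hj]
        simp [dot]
  let A : (Ed M → ZMod 2) → CV M z ⊕ U → CV M z ⊕ U := fun y => Sum.map (actC π y) id
  have hΘP : ∀ y x, Θ (bp blk (fun j => trA (τ y j)) x) = A y (Θ x) := by
    intro y x
    by_cases h : ∃ b l, x = blk (ei b, cd l)
    · obtain ⟨b, l, rfl⟩ := h
      have h1 : bp blk (fun j => trA (τ y j)) (blk (ei b, cd l)) =
          blk (ei b, cd (l + tauP π y b)) := by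
        rw [bp_apply, hτ1]
        show blk (ei b, tr (tauP π y b) (cd l)) = _
        rw [tr_cd]
      rw [h1, hΘ, hΘ]
      rfl
    · have h1 : bp blk (fun j => trA (τ y j)) x = x := by
        by_cases hx : x ∈ Set.range blk
        · obtain ⟨⟨j, c⟩, rfl⟩ := hx
          rw [bp_apply]
          by_cases hj : ∃ b, ei b = j
          · obtain ⟨b, rfl⟩ := hj
            obtain ⟨l, rfl⟩ := cd_surj c
            exact absurd ⟨b, l, rfl⟩ h
          · rw [hτ2 y j hj, trA_zero]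
            rfl
        · exact bp_notMem blk _ hx
      rw [h1]
      rcases hx : Θ x with (⟨p, l⟩ | j) | u
      · exfalso
        apply h
        exact ⟨p, l, Θ.injective (by rw [hΘ, hx])⟩
      · rfl
      · rfl
  have hAact : ∀ β y (a b : CV M z ⊕ U), (CG π (β + bd π y) z ⊕g K).Adj (A y a) (A y b) ↔
      (CG π β z ⊕g K).Adj a b := by
    rintro β y (a | a) (b | b)
    · simp only [A, Sum.map_inl, SimpleGraph.sum_adj_inl]
      exact CG_act π y a b
    · simp [A, SimpleGraph.sum]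
    · simp [A, SimpleGraph.sum]
    · simp only [A, Sum.map_inr, SimpleGraph.sum_adj_inr, id]
  exact graph_pair π hM hπ v0 hv0 k hk0 hk P hD blk hsym τ hτadd hloc
    (fun β => (CG π β z ⊕g K).comap Θ)
    (by
      intro β y u w
      rw [SimpleGraph.comap_adj, SimpleGraph.comap_adj, hΘP, hΘP]
      exact hAact β y _ _)
    (by
      intro u w
      rcases hu : Θ u with a | a <;> rcases hw : Θ w with b | b
      · obtain ⟨v, hv⟩ := CG_node π hM a b
        refine ⟨v, fun β β' h => ?_⟩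
        rw [SimpleGraph.comap_adj, SimpleGraph.comap_adj, hu, hw, SimpleGraph.sum_adj_inl,
          SimpleGraph.sum_adj_inl]
        exact hv β β' h
      · refine ⟨(⟨0, hM⟩, 0), fun β β' _ => ?_⟩
        rw [SimpleGraph.comap_adj, SimpleGraph.comap_adj, hu, hw]
        exact Iff.rfl
      · refine ⟨(⟨0, hM⟩, 0), fun β β' _ => ?_⟩
        rw [SimpleGraph.comap_adj, SimpleGraph.comap_adj, hu, hw]
        exact Iff.rfl
      · refine ⟨(⟨0, hM⟩, 0), fun β β' _ => ?_⟩
        rw [SimpleGraph.comap_adj, SimpleGraph.comap_adj, hu, hw]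
        exact Iff.rfl)

end core

/-- identification of the vertices compatible with the blocks -/
theorem theta4 {V : Type*} [Fintype V] {r : ℕ} (blk : Fin r × Fin 4 ↪ V) {M z : ℕ}
    (hz : Fintype.card V = 700 * M + z) (ei : Pl M ↪ Fin r) :
    ∃ Θ : V ≃ CV M z, ∀ p l, Θ (blk (ei p, cd l)) = Sum.inl (p, l) := by
  have hcard : Fintype.card V = Fintype.card (CV M z) := by
    unfold CV
    rw [Fintype.card_sum, Fintype.card_prod, card_Pl, Fintype.card_fin]
    have h4 : Fintype.card W4 = 4 := rfl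
    rw [h4, hz]
    ring
  obtain ⟨Θ, hΘ⟩ := Pool.Agent.H545R2.extend_two (A := Pl M × W4) (V := V) (W := CV M z)
    (fun q => blk (ei q.1, cd q.2)) (fun q => Sum.inl q)
    (by
      rintro ⟨b, l⟩ ⟨b', l'⟩ h
      have h1 := blk.injective h
      simp only [Prod.mk.injEq] at h1
      rw [ei.injective h1.1, cd_inj h1.2])
    (by
      intro q q' h
      exact Sum.inl_injective h) hcard
  exact ⟨Θ, fun p l => hΘ (p, l)⟩

/-- blocks of the first of two graphs -/
def fstB {V : Type*} (b : Fin 4 ↪ V) : Fin 4 ↪ V ⊕ V := b.trans Function.Embedding.inl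

theorem fstB_disj {V : Type*} {r : ℕ} {blk : Fin r → (Fin 4 ↪ V)}
    (hd : Pairwise fun i j => Disjoint (Set.range (blk i)) (Set.range (blk j))) :
    Pairwise fun i j => Disjoint (Set.range (fstB (blk i))) (Set.range (fstB (blk j))) := by
  intro i j hij
  have h := hd hij
  show Disjoint _ _
  rw [Set.disjoint_left]
  rintro _ ⟨c, rfl⟩ ⟨c', hc'⟩
  exact Set.disjoint_left.1 h ⟨c, rfl⟩ ⟨c', Sum.inl_injective hc'⟩

/-- **Two nonisomorphic graphs that no small locally symmetric semidefinite program tells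
apart**, also in the presence of a second graph. -/
theorem gi_pair (V : Type*) [Fintype V] (r k : ℕ) (hk0 : 0 < k) (hr : 10500 * k ≤ r)
    (blk : Fin r → (Fin 4 ↪ V))
    (hd : Pairwise fun i j => Disjoint (Set.range (blk i)) (Set.range (blk j))) :
    ∃ G G' : SimpleGraph V, Deg9 G ∧ Deg9 G' ∧ ¬ Nonempty (G ≃g G') ∧
      (∀ (D : Type) [Fintype D] [DecidableEq D] (P : SDP (Sym2 V) D),
        (∀ i, P.SymOn edPerm (blk i)) → Fintype.card D ^ 2 < 3 ^ k →
        (P.Acc (gvec G) ↔ P.Acc (gvec G'))) ∧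
      ∀ (D : Type) [Fintype D] [DecidableEq D] (P : SDP (Sym2 (V ⊕ V)) D),
        (∀ i, P.SymOn edPerm (fstB (blk i))) → Fintype.card D ^ 2 < 3 ^ k →
        ∀ H : SimpleGraph V, (P.Acc (gvec (G ⊕g H)) ↔ P.Acc (gvec (G' ⊕g H))) := by
  classical
  obtain ⟨M, hMd⟩ : ∃ M, M = 60 * k := ⟨_, rfl⟩
  have hM : 0 < M := by omega
  have hMr : 175 * M ≤ r := by omega
  have hrV : 4 * r ≤ Fintype.card V := by
    have := Fintype.card_le_of_embedding (blkE blk hd)
    rw [Fintype.card_prod, Fintype.card_fin, Fintype.card_fin] at this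
    omega
  obtain ⟨π, hπ⟩ := Pool.Agent.H545R2.exists_joining M hM
  obtain ⟨ei⟩ : Nonempty (Pl M ↪ Fin r) := by
    apply Function.Embedding.nonempty_of_card_le
    rw [card_Pl, Fintype.card_fin]
    exact hMr
  obtain ⟨z, hz⟩ : ∃ z, Fintype.card V = 700 * M + z :=
    ⟨Fintype.card V - 700 * M, by omega⟩
  obtain ⟨v0, hv0⟩ := exists_central π hM hπ
  obtain ⟨Θ, hΘ⟩ := theta4 (blkE blk hd) hz ei
  refine ⟨(CG π 0 z).comap Θ, (CG π (Pi.single v0 1) z).comap Θ, deg9_comap π _ Θ,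
    deg9_comap π _ Θ, ?_, ?_, ?_⟩
  · rintro ⟨f⟩
    obtain ⟨f3⟩ := comapIso (CG π (Pi.single v0 1) z) Θ
    obtain ⟨f0⟩ := comapIso (CG π 0 z) Θ
    exact not_iso π v0 ⟨(f3.symm.trans f.symm).trans f0⟩
  · intro D _ _ P hP hD
    have h := gi_core (U := Empty) π (blkE blk hd) hM hπ v0 hv0 k hk0 (by omega) P hD
      (sym_all edPerm edPerm_one edPerm_mul blk hd hP) ei (Θ.trans (Equiv.sumEmpty _ _).symm)
      (by intro p l; rw [Equiv.trans_apply, hΘ]; rfl) ⊥
    have hre : ∀ β : Nd M → ZMod 2, (CG π β z ⊕g (⊥ : SimpleGraph Empty)).comap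
        (Θ.trans (Equiv.sumEmpty _ _).symm) = (CG π β z).comap Θ := by
      intro β
      ext a b
      rfl
    rwa [hre, hre] at h
  · intro D _ _ P hP hD H
    have h := gi_core (U := V) π (blkE (fun i => fstB (blk i)) (fstB_disj hd)) hM hπ v0 hv0 k hk0
      (by omega) P hD
      (sym_all edPerm edPerm_one edPerm_mul _ (fstB_disj hd) hP) ei
      (Equiv.sumCongr Θ (Equiv.refl V))
      (by
        intro p l
        show Sum.inl (Θ (blkE blk hd (ei p, cd l))) = _
        rw [hΘ]) H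
    have hre : ∀ β : Nd M → ZMod 2, (CG π β z ⊕g H).comap (Equiv.sumCongr Θ (Equiv.refl V)) =
        ((CG π β z).comap Θ) ⊕g H := by
      intro β
      ext a b
      rcases a with a | a <;> rcases b with b | b <;> rfl
    rwa [hre, hre] at h

end Pool.Agent.H550R2.Lift
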